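import Mathlib

/-!
# The branches of the symbolic defect of a monomial ideal need not have the same leading coefficient

`I = (x³, x²w, xzw, zw²) = (x², z) ∩ (x³, xw, w²)` in `k[x, z, w]`: the symbolic defect is
`sdef(n) = 2 n - 2` for even `n ≥ 2` and `sdef(n) = (5 n - 3) / 2` for odd `n ≥ 3`.
-/

set_option autoImplicit false

open MvPolynomial

namespace Pool.Agent.Results.MP_a342dd_al.BranchesDiffer

/-! ## Definitions -/

/-- The `n`-th symbolic power of `I`: the intersection of the contractions of `I ^ n R_P` over all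
associated primes `P` of `R / I`. -/
noncomputable def symbolicPower {R : Type*} [CommRing R] (I : Ideal R) (n : ℕ) : Ideal R :=
  ⨅ P : associatedPrimes R (R ⧸ I),
    haveI : (P.1).IsPrime := P.2.isPrime
    Ideal.comap (algebraMap R (Localization.AtPrime P.1))
      (Ideal.map (algebraMap R (Localization.AtPrime P.1)) (I ^ n))

/-- The ideal generated by the variables. -/
noncomputable def maxIdeal (k : Type*) [Field k] (r : ℕ) : Ideal (MvPolynomial (Fin r) k) :=
  Ideal.span (Set.range X)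

/-- The symbolic defect: the dimension over `k` of `I^(n) / (I ^ n + 𝔪 I^(n))`. -/
noncomputable def sdef {k : Type*} [Field k] {r : ℕ} (I : Ideal (MvPolynomial (Fin r) k))
    (n : ℕ) : ℕ :=
  Module.finrank k (symbolicPower I n ⧸
    (I ^ n ⊔ maxIdeal k r * symbolicPower I n).submoduleOf (symbolicPower I n))

/-- A monomial ideal: generated by monomials. -/
def IsMonomialIdeal {k : Type*} [Field k] {r : ℕ} (I : Ideal (MvPolynomial (Fin r) k)) : Prop :=
  ∃ S : Set (Fin r →₀ ℕ), I = Ideal.span ((fun s => monomial s (1 : k)) '' S)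

/-- `P 0, …, P (p - 1)` are the branches of the eventually quasi-polynomial function `f`. -/
def HasBranches (f : ℕ → ℕ) (p : ℕ) (P : ℕ → Polynomial ℚ) : Prop :=
  0 < p ∧ ∃ N : ℕ, ∀ n ≥ N, (f n : ℚ) = (P (n % p)).eval (n : ℚ)

/-- All branches of `f` have the same coefficient in the degree `d`, the maximum of the degrees of
the branches. -/
def EqualLeadingCoefficients (f : ℕ → ℕ) : Prop :=
  ∀ (p : ℕ) (P : ℕ → Polynomial ℚ), HasBranches f p P → ∀ i < p, ∀ j < p,
    (P i).coeff ((Finset.range p).sup fun l => (P l).natDegree) =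
      (P j).coeff ((Finset.range p).sup fun l => (P l).natDegree)

/-! ## Symbolic powers -/

theorem mem_symbolicPower {R : Type*} [CommRing R] (I : Ideal R) (n : ℕ) (f : R) :
    f ∈ symbolicPower I n ↔
      ∀ P ∈ associatedPrimes R (R ⧸ I), ∃ s, s ∉ P ∧ s * f ∈ I ^ n := by
  unfold symbolicPower
  rw [Ideal.mem_iInf]
  constructor
  · intro h P hP
    have : P.IsPrime := hP.isPrime
    have h1 := h ⟨P, hP⟩
    rw [Ideal.mem_comap] at h1
    obtain ⟨m, hm, hm2⟩ := (IsLocalization.algebraMap_mem_map_algebraMap_iff P.primeCompl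
      (Localization.AtPrime P) (I ^ n) f).1 h1
    exact ⟨m, hm, hm2⟩
  · rintro h ⟨P, hP⟩
    have : P.IsPrime := hP.isPrime
    obtain ⟨s, hs, hs2⟩ := h P hP
    rw [Ideal.mem_comap]
    exact (IsLocalization.algebraMap_mem_map_algebraMap_iff P.primeCompl
      (Localization.AtPrime P) (I ^ n) f).2 ⟨s, hs, hs2⟩

/-! ## Weights -/

variable {k : Type*} [Field k]

/-- the substitution `X i ↦ X i * T ^ (ω i)` -/
noncomputable def phi (ω : Fin 3 → ℕ) :
    MvPolynomial (Fin 3) k →ₐ[k] Polynomial (MvPolynomial (Fin 3) k) :=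
  aeval (fun i => Polynomial.C (X i) * Polynomial.X ^ (ω i))

theorem phi_monomial (ω : Fin 3 → ℕ) (a : Fin 3 →₀ ℕ) (c : k) :
    phi ω (monomial a c) = Polynomial.monomial (∑ i, ω i * a i) (monomial a c) := by
  unfold phi
  rw [aeval_monomial, Finsupp.prod_fintype _ _ (by simp), monomial_eq (s := a) (a := c),
    Finsupp.prod_fintype _ _ (by simp)]
  simp only [mul_pow, ← pow_mul, Finset.prod_mul_distrib]
  rw [Finset.prod_pow_eq_pow_sum, ← Polynomial.C_mul_X_pow_eq_monomial]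
  simp only [map_mul, map_prod, map_pow]
  rw [mul_assoc]
  rfl

/-- polynomials all of whose terms have weight at least `d` -/
noncomputable def W (ω : Fin 3 → ℕ) (d : ℕ) : Ideal (MvPolynomial (Fin 3) k) :=
  Ideal.comap (phi ω) (Ideal.span {Polynomial.X ^ d})

theorem mem_W_iff (ω : Fin 3 → ℕ) (d : ℕ) (f : MvPolynomial (Fin 3) k) :
    f ∈ W ω d ↔ Polynomial.X ^ d ∣ phi ω f := by
  unfold W
  rw [Ideal.mem_comap, Ideal.mem_span_singleton]

theorem phi_coeff (ω : Fin 3 → ℕ) (f : MvPolynomial (Fin 3) k) (e : ℕ) :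
    (phi ω f).coeff e = ∑ a ∈ f.support,
      if ∑ i, ω i * a i = e then monomial a (coeff a f) else 0 := by
  conv_lhs => rw [f.as_sum]
  rw [map_sum, Polynomial.finsetSum_coeff]
  apply Finset.sum_congr rfl
  intro a _
  rw [phi_monomial, Polynomial.coeff_monomial]

theorem mem_W (ω : Fin 3 → ℕ) (d : ℕ) (f : MvPolynomial (Fin 3) k) :
    f ∈ W ω d ↔ ∀ a ∈ f.support, d ≤ ∑ i, ω i * a i := by
  rw [mem_W_iff, Polynomial.X_pow_dvd_iff]
  constructor
  · intro h a ha
    by_contra hlt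
    push Not at hlt
    have h1 := h _ hlt
    rw [phi_coeff] at h1
    have h2 := congrArg (coeff a) h1
    rw [coeff_sum, Finset.sum_eq_single a] at h2
    · rw [if_pos rfl, coeff_monomial, if_pos rfl, coeff_zero] at h2
      exact (mem_support_iff.1 ha) h2
    · intro b _ hb
      split_ifs
      · rw [coeff_monomial, if_neg hb]
      · rw [coeff_zero]
    · intro h3
      exact absurd ha h3
  · intro h e he
    rw [phi_coeff]
    apply Finset.sum_eq_zero
    intro a ha
    rw [if_neg]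
    have := h a ha
    omega

theorem W_pow (ω : Fin 3 → ℕ) (d n : ℕ) (I : Ideal (MvPolynomial (Fin 3) k))
    (h : I ≤ W ω d) : I ^ n ≤ W ω (d * n) := by
  unfold W at h ⊢
  rw [← Ideal.map_le_iff_le_comap] at h ⊢
  rw [Ideal.map_pow, pow_mul, ← Ideal.span_singleton_pow]
  exact Ideal.pow_right_mono h n

theorem W_prime (ω : Fin 3 → ℕ) : (W (k := k) ω 1).IsPrime := by
  unfold W
  rw [pow_one]
  have : (Ideal.span {(Polynomial.X : Polynomial (MvPolynomial (Fin 3) k))}).IsPrime :=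
    (Ideal.span_singleton_prime Polynomial.X_ne_zero).2 Polynomial.prime_X
  exact Ideal.comap_isPrime _ _

theorem W_div (ω : Fin 3 → ℕ) (d : ℕ) (s f : MvPolynomial (Fin 3) k) (hs : s ∉ W ω 1)
    (h : s * f ∈ W ω d) : f ∈ W ω d := by
  rw [mem_W_iff] at hs h ⊢
  rw [pow_one] at hs
  rw [map_mul] at h
  exact Polynomial.prime_X.pow_dvd_of_dvd_mul_left d hs h

/-! ## The ideal -/

/-- the exponent vector `(a, b, c)` -/
noncomputable def e3 (a b c : ℕ) : Fin 3 →₀ ℕ := Finsupp.equivFunOnFinite.symm ![a, b, c]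

@[simp] theorem e3_0 (a b c : ℕ) : e3 a b c 0 = a := rfl
@[simp] theorem e3_1 (a b c : ℕ) : e3 a b c 1 = b := rfl
@[simp] theorem e3_2 (a b c : ℕ) : e3 a b c 2 = c := rfl

theorem le3 (a b : Fin 3 →₀ ℕ) : a ≤ b ↔ a 0 ≤ b 0 ∧ a 1 ≤ b 1 ∧ a 2 ≤ b 2 := by
  rw [Finsupp.le_def, Fin.forall_fin_succ, Fin.forall_fin_succ, Fin.forall_fin_succ]
  simp

theorem ext3 (a b : Fin 3 →₀ ℕ) (h0 : a 0 = b 0) (h1 : a 1 = b 1) (h2 : a 2 = b 2) : a = b := by
  ext i
  fin_cases i
  · exact h0
  · exact h1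
  · exact h2

theorem sum3 (ω : Fin 3 → ℕ) (a : Fin 3 →₀ ℕ) :
    ∑ i, ω i * a i = ω 0 * a 0 + ω 1 * a 1 + ω 2 * a 2 := by
  rw [Fin.sum_univ_three]

/-- the exponents of the generators -/
def gens : Set (Fin 3 →₀ ℕ) := {e3 3 0 0, e3 2 0 1, e3 1 1 1, e3 0 1 2}

variable (k) in
/-- the ideal `(x³, x²w, xzw, zw²)`, where `x = X 0`, `z = X 1`, `w = X 2` -/
noncomputable def II : Ideal (MvPolynomial (Fin 3) k) :=
  Ideal.span ((fun s => monomial s (1 : k)) '' gens)

theorem mem_II (f : MvPolynomial (Fin 3) k) :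
    f ∈ II k ↔ ∀ a ∈ f.support, 3 ≤ a 0 ∨ (2 ≤ a 0 ∧ 1 ≤ a 2) ∨ (1 ≤ a 0 ∧ 1 ≤ a 1 ∧ 1 ≤ a 2) ∨
      (1 ≤ a 1 ∧ 2 ≤ a 2) := by
  unfold II gens
  rw [mem_ideal_span_monomial_image]
  apply forall₂_congr
  intro a _
  simp only [Set.mem_insert_iff, Set.mem_singleton_iff, exists_eq_or_imp, exists_eq_left, le3,
    e3_0, e3_1, e3_2]
  omega

theorem gen_mem {g : Fin 3 →₀ ℕ} (hg : g ∈ gens) : monomial g (1 : k) ∈ II k :=
  Ideal.subset_span ⟨g, hg, rfl⟩

theorem mem_of_le (A : Ideal (MvPolynomial (Fin 3) k)) {b a : Fin 3 →₀ ℕ}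
    (hb : monomial b (1 : k) ∈ A) (h : b ≤ a) (c : k) : monomial a c ∈ A := by
  have : monomial a c = monomial (a - b) c * monomial b 1 := by
    rw [monomial_mul, tsub_add_cancel_of_le h, mul_one]
  rw [this]
  exact A.mul_mem_left _ hb

theorem mul_mem_pow {g h : Fin 3 →₀ ℕ} {i j : ℕ} (hg : monomial g (1 : k) ∈ II k ^ i)
    (hh : monomial h (1 : k) ∈ II k ^ j) : monomial (g + h) (1 : k) ∈ II k ^ (i + j) := by
  have : monomial (g + h) (1 : k) = monomial g 1 * monomial h 1 := by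
    rw [monomial_mul, mul_one]
  rw [this, pow_add]
  exact Ideal.mul_mem_mul hg hh

theorem smul_mem_pow {g : Fin 3 →₀ ℕ} (hg : monomial g (1 : k) ∈ II k) (i : ℕ) :
    monomial (i • g) (1 : k) ∈ II k ^ i := by
  have : monomial (i • g) (1 : k) = monomial g 1 ^ i := by
    rw [monomial_pow, one_pow]
  rw [this]
  exact Ideal.pow_mem_pow hg i

theorem mem_II_mono (g : Fin 3 →₀ ℕ) (h : 3 ≤ g 0 ∨ (2 ≤ g 0 ∧ 1 ≤ g 2) ∨
    (1 ≤ g 0 ∧ 1 ≤ g 1 ∧ 1 ≤ g 2) ∨ (1 ≤ g 1 ∧ 2 ≤ g 2)) : monomial g (1 : k) ∈ II k := by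
  rw [mem_II]
  intro a ha
  have h1 : a = g := by
    have := support_monomial_subset ha
    simpa using this
  rw [h1]
  exact h

/-- terms of weight at least `2 n` are in `I ^ n` after multiplication by `w ^ (2 n)` -/
theorem caseW (n : ℕ) (a : Fin 3 →₀ ℕ) (h : 2 * n ≤ a 0 + 2 * a 1) (c : k) :
    monomial (a + e3 0 0 (2 * n)) c ∈ II k ^ n := by
  obtain ⟨i, j, hij, hi, hj⟩ : ∃ i j : ℕ, i + j = n ∧ 2 * i ≤ a 0 ∧ j ≤ a 1 := by
    by_cases h1 : n ≤ a 1
    · exact ⟨0, n, by omega, by omega, by omega⟩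
    · exact ⟨n - a 1, a 1, by omega, by omega, by omega⟩
  have h1 : monomial (i • e3 2 0 2 + j • e3 0 1 2) (1 : k) ∈ II k ^ (i + j) :=
    mul_mem_pow (smul_mem_pow (mem_II_mono _ (by simp)) i) (smul_mem_pow (mem_II_mono _ (by simp)) j)
  rw [hij] at h1
  apply mem_of_le _ h1
  rw [le3]
  simp only [Finsupp.add_apply, Finsupp.smul_apply, e3_0, e3_1, e3_2, smul_eq_mul]
  omega

theorem caseZ (n : ℕ) (a : Fin 3 →₀ ℕ) (h : 3 * n ≤ a 0 + 2 * a 2) (h' : 2 * n ≤ a 0 + a 2)
    (c : k) : monomial (a + e3 0 n 0) c ∈ II k ^ n := by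
  obtain ⟨i, j, l, hij, hi, hj⟩ : ∃ i j l : ℕ, i + j + l = n ∧ 3 * i + j ≤ a 0 ∧
      j + 2 * l ≤ a 2 := by
    by_cases h1 : a 0 < n
    · exact ⟨0, a 0, n - a 0, by omega, by omega, by omega⟩
    · by_cases h2 : 3 * n ≤ a 0
      · exact ⟨n, 0, 0, by omega, by omega, by omega⟩
      · exact ⟨(a 0 - n) / 2, n - (a 0 - n) / 2, 0, by omega, by omega, by omega⟩
  have h1 : monomial (i • e3 3 1 0 + j • e3 1 1 1 + l • e3 0 1 2) (1 : k) ∈
      II k ^ (i + j + l) :=
    mul_mem_pow (mul_mem_pow (smul_mem_pow (mem_II_mono _ (by simp)) i)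
      (smul_mem_pow (mem_II_mono _ (by simp)) j)) (smul_mem_pow (mem_II_mono _ (by simp)) l)
  rw [hij] at h1
  apply mem_of_le _ h1
  rw [le3]
  simp only [Finsupp.add_apply, Finsupp.smul_apply, e3_0, e3_1, e3_2, smul_eq_mul]
  omega

theorem term_mem (A : Ideal (MvPolynomial (Fin 3) k)) (f : MvPolynomial (Fin 3) k)
    (h : ∀ a ∈ f.support, monomial a (coeff a f) ∈ A) : f ∈ A := by
  rw [f.as_sum]
  exact A.sum_mem h

theorem II_le (ω : Fin 3 → ℕ) (d : ℕ) (h : ∀ g ∈ gens, d ≤ ∑ i, ω i * g i) : II k ≤ W ω d := by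
  unfold II
  rw [Ideal.span_le]
  rintro _ ⟨g, hg, rfl⟩
  show _ ∈ W ω d
  rw [mem_W]
  intro a ha
  have h1 : a = g := by
    have := support_monomial_subset ha
    simpa using this
  rw [h1]
  exact h g hg

theorem II_le1 : II k ≤ W ![1, 2, 0] 2 := by
  apply II_le
  intro g hg
  rw [sum3]
  rcases hg with rfl | rfl | rfl | rfl <;> simp

theorem II_le2 : II k ≤ W ![1, 0, 2] 3 := by
  apply II_le
  intro g hg
  rw [sum3]
  rcases hg with rfl | rfl | rfl | rfl <;> simp

theorem II_le3 : II k ≤ W ![1, 0, 1] 2 := by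
  apply II_le
  intro g hg
  rw [sum3]
  rcases hg with rfl | rfl | rfl | rfl <;> simp

theorem II_le4 : II k ≤ W ![1, 1, 1] 3 := by
  apply II_le
  intro g hg
  rw [sum3]
  rcases hg with rfl | rfl | rfl | rfl <;> simp

theorem mem_colon (g : MvPolynomial (Fin 3) k) (s : MvPolynomial (Fin 3) k) :
    s ∈ Submodule.colon (⊥ : Submodule (MvPolynomial (Fin 3) k) (MvPolynomial (Fin 3) k ⧸ II k))
      {Ideal.Quotient.mk (II k) g} ↔ s * g ∈ II k := by
  rw [Submodule.mem_colon_singleton, Submodule.mem_bot, ← Ideal.Quotient.eq_zero_iff_mem, map_mul]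
  rfl

theorem mem_mul_mono {s : MvPolynomial (Fin 3) k} {g a : Fin 3 →₀ ℕ}
    (ha : a ∈ (s * monomial g (1 : k)).support) : ∃ b ∈ s.support, a = b + g := by
  classical
  have h1 := support_mul s (monomial g (1 : k)) ha
  rw [Finset.mem_add] at h1
  obtain ⟨b, hb, c, hc, rfl⟩ := h1
  have := support_monomial_subset hc
  rw [Finset.mem_singleton] at this
  exact ⟨b, hb, by rw [this]⟩

theorem phi_mono_one (ω : Fin 3 → ℕ) (g : Fin 3 →₀ ℕ) :
    phi ω (monomial g (1 : k)) = Polynomial.monomial (∑ i, ω i * g i) (monomial g 1) :=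
  phi_monomial ω g 1

theorem W_shift (ω : Fin 3 → ℕ) (d : ℕ) (s : MvPolynomial (Fin 3) k) (g : Fin 3 →₀ ℕ)
    (h : s * monomial g (1 : k) ∈ W ω d) : s ∈ W ω (d - ∑ i, ω i * g i) := by
  rw [mem_W] at h ⊢
  intro a ha
  have h1 : a + g ∈ (s * monomial g (1 : k)).support := by
    rw [mem_support_iff, coeff_mul_monomial, mul_one]
    exact mem_support_iff.1 ha
  have h2 := h _ h1
  have h3 : ∑ i, ω i * (a + g) i = ∑ i, ω i * a i + ∑ i, ω i * g i := by
    rw [← Finset.sum_add_distrib]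
    apply Finset.sum_congr rfl
    intro i _
    rw [Finsupp.add_apply, mul_add]
  omega

theorem P1_ass : W (k := k) ![1, 2, 0] 1 ∈
    associatedPrimes (MvPolynomial (Fin 3) k) (MvPolynomial (Fin 3) k ⧸ II k) := by
  rw [AssociatedPrimes.mem_iff, isAssociatedPrime_iff]
  refine ⟨W_prime _, Ideal.Quotient.mk (II k) (monomial (e3 1 0 2) 1), ?_⟩
  ext s
  rw [mem_colon]
  constructor
  · intro h
    rw [mem_II]
    intro a ha
    obtain ⟨b, hb, rfl⟩ := mem_mul_mono ha
    have h1 := (mem_W _ _ _).1 h b hb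
    rw [sum3] at h1
    simp at h1
    simp only [Finsupp.add_apply, e3_0, e3_1, e3_2]
    omega
  · intro h
    have h1 := W_shift _ _ _ _ (II_le1 h)
    rw [sum3] at h1
    simpa using h1

theorem P2_ass : W (k := k) ![1, 0, 2] 1 ∈
    associatedPrimes (MvPolynomial (Fin 3) k) (MvPolynomial (Fin 3) k ⧸ II k) := by
  rw [AssociatedPrimes.mem_iff, isAssociatedPrime_iff]
  refine ⟨W_prime _, Ideal.Quotient.mk (II k) (monomial (e3 2 1 0) 1), ?_⟩
  ext s
  rw [mem_colon]
  constructor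
  · intro h
    rw [mem_II]
    intro a ha
    obtain ⟨b, hb, rfl⟩ := mem_mul_mono ha
    have h1 := (mem_W _ _ _).1 h b hb
    rw [sum3] at h1
    simp at h1
    simp only [Finsupp.add_apply, e3_0, e3_1, e3_2]
    omega
  · intro h
    have h1 := W_shift _ _ _ _ (II_le2 h)
    rw [sum3] at h1
    simpa using h1

/-- no associated prime contains both `z` and `w` -/
theorem not_both (P : Ideal (MvPolynomial (Fin 3) k))
    (hP : P ∈ associatedPrimes (MvPolynomial (Fin 3) k) (MvPolynomial (Fin 3) k ⧸ II k)) :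
    monomial (e3 0 1 0) 1 ∉ P ∨ monomial (e3 0 0 1) 1 ∉ P := by
  rw [AssociatedPrimes.mem_iff, isAssociatedPrime_iff] at hP
  obtain ⟨hp, x, hx⟩ := hP
  obtain ⟨f, rfl⟩ := Ideal.Quotient.mk_surjective x
  by_contra hcon
  push Not at hcon
  obtain ⟨h1, h2⟩ := hcon
  rw [hx, mem_colon, mul_comm] at h1 h2
  apply hp.ne_top
  rw [Ideal.eq_top_iff_one, hx, mem_colon, one_mul, mem_II]
  intro a ha
  have h3 : a + e3 0 1 0 ∈ (f * monomial (e3 0 1 0) (1 : k)).support := by
    rw [mem_support_iff, coeff_mul_monomial, mul_one]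
    exact mem_support_iff.1 ha
  have h4 : a + e3 0 0 1 ∈ (f * monomial (e3 0 0 1) (1 : k)).support := by
    rw [mem_support_iff, coeff_mul_monomial, mul_one]
    exact mem_support_iff.1 ha
  have h5 := (mem_II _).1 h1 _ h3
  have h6 := (mem_II _).1 h2 _ h4
  simp only [Finsupp.add_apply, e3_0, e3_1, e3_2] at h5 h6
  omega

theorem mul_mem_of_terms (A : Ideal (MvPolynomial (Fin 3) k)) (g f : MvPolynomial (Fin 3) k)
    (h : ∀ a ∈ f.support, g * monomial a (coeff a f) ∈ A) : g * f ∈ A := by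
  have h1 : g * f = ∑ a ∈ f.support, g * monomial a (coeff a f) := by
    conv_lhs => rw [f.as_sum]
    rw [Finset.mul_sum]
  rw [h1]
  exact A.sum_mem h

theorem mem_sym (n : ℕ) (f : MvPolynomial (Fin 3) k) :
    f ∈ symbolicPower (II k) n ↔ ∀ a ∈ f.support, 2 * n ≤ a 0 + 2 * a 1 ∧
      3 * n ≤ a 0 + 2 * a 2 ∧ 2 * n ≤ a 0 + a 2 := by
  rw [mem_symbolicPower]
  constructor
  · intro h
    obtain ⟨s, hs, hsf⟩ := h _ P1_ass
    obtain ⟨t, ht, htf⟩ := h _ P2_ass
    have h1 := W_div _ _ _ _ hs (W_pow _ _ n _ II_le1 hsf)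
    have h2 := W_div _ _ _ _ ht (W_pow _ _ n _ II_le2 htf)
    have ht' : t ∉ W ![1, 0, 1] 1 := by
      intro h3
      apply ht
      rw [mem_W] at h3 ⊢
      intro a ha
      have := h3 a ha
      rw [sum3] at this ⊢
      simp at this ⊢
      omega
    have h3 := W_div _ _ _ _ ht' (W_pow _ _ n _ II_le3 htf)
    intro a ha
    have e1 := (mem_W _ _ _).1 h1 a ha
    have e2 := (mem_W _ _ _).1 h2 a ha
    have e3 := (mem_W _ _ _).1 h3 a ha
    rw [sum3] at e1 e2 e3
    simp at e1 e2 e3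
    omega
  · intro h P hP
    have hp : P.IsPrime := hP.isPrime
    rcases not_both P hP with h1 | h1
    · refine ⟨monomial (e3 0 1 0) 1 ^ n, fun h2 => h1 (hp.mem_of_pow_mem n h2), ?_⟩
      rw [monomial_pow, one_pow]
      apply mul_mem_of_terms
      intro a ha
      rw [monomial_mul, one_mul]
      have e : n • e3 0 1 0 + a = a + e3 0 n 0 := by
        apply ext3 <;> simp [add_comm]
      rw [e]
      exact caseZ n a (h a ha).2.1 (h a ha).2.2 _
    · refine ⟨monomial (e3 0 0 1) 1 ^ (2 * n), fun h2 => h1 (hp.mem_of_pow_mem _ h2), ?_⟩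
      rw [monomial_pow, one_pow]
      apply mul_mem_of_terms
      intro a ha
      rw [monomial_mul, one_mul]
      have e : (2 * n) • e3 0 0 1 + a = a + e3 0 0 (2 * n) := by
        apply ext3 <;> simp [add_comm]
      rw [e]
      exact caseW n a (h a ha).1 _

/-! ## Counting -/

theorem finrank_quot (J N : Ideal (MvPolynomial (Fin 3) k)) (D : Finset (Fin 3 →₀ ℕ))
    (h1 : ∀ a ∈ D, monomial a (1 : k) ∈ J) (h2 : ∀ f ∈ N, ∀ a ∈ D, coeff a f = 0)
    (h3 : ∀ f ∈ J, (∀ a ∈ D, coeff a f = 0) → f ∈ N) :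
    Module.finrank k (J ⧸ N.submoduleOf J) = D.card := by
  classical
  let Φ : J →ₗ[k] (D → k) :=
    { toFun := fun f a => coeff a.1 f.1
      map_add' := fun f g => by funext a; simp
      map_smul' := fun c f => by
        funext a
        show coeff a.1 ((c • f : J) : MvPolynomial (Fin 3) k) = c • coeff a.1 f.1
        rw [← coeff_smul]
        rfl }
  have hs : Function.Surjective Φ := by
    intro v
    refine ⟨∑ a : D, v a • ⟨monomial a.1 1, h1 a.1 a.2⟩, ?_⟩
    rw [map_sum]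
    funext b
    rw [Finset.sum_apply, Finset.sum_eq_single b]
    · rw [map_smul, Pi.smul_apply]
      show v b • coeff b.1 (monomial b.1 (1 : k)) = v b
      rw [coeff_monomial, if_pos rfl, smul_eq_mul, mul_one]
    · intro a _ hab
      rw [map_smul, Pi.smul_apply]
      show v a • coeff b.1 (monomial a.1 (1 : k)) = 0
      rw [coeff_monomial, if_neg (fun h => hab (Subtype.ext h)), smul_zero]
    · intro h
      exact absurd (Finset.mem_univ b) h
  have hk : LinearMap.ker Φ = (N.submoduleOf J).restrictScalars k := by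
    ext f
    rw [LinearMap.mem_ker, Submodule.restrictScalars_mem]
    show _ ↔ (f : MvPolynomial (Fin 3) k) ∈ N
    constructor
    · intro h
      exact h3 _ f.2 (fun a ha => congrFun h ⟨a, ha⟩)
    · intro h
      funext a
      exact h2 _ h a.1 a.2
  have e1 := Φ.quotKerEquivOfSurjective hs
  have e2 := Submodule.Quotient.restrictScalarsEquiv k (N.submoduleOf J)
  have e3 := (Submodule.quotEquivOfEq _ _ hk).symm
  rw [← (e2.symm.trans (e3.trans e1)).symm.finrank_eq, Module.finrank_fintype_fun_eq_card,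
    Fintype.card_coe]

/-- first coordinates of the minimal generators which are counted -/
def EE (n : ℕ) : Finset ℕ :=
  (Finset.range (3 * n)).filter (fun x => 2 ≤ x ∧ (x ≤ n ∨ (x ≤ 2 * n ∧ x % 2 = 0) ∨ x % 2 = n % 2))

theorem card_even (m : ℕ) (hm : 1 ≤ m) : (EE (2 * m)).card = 4 * m - 2 := by
  have h : EE (2 * m) = Finset.Icc 2 (2 * m) ∪ (Finset.Ioo m (3 * m)).image (fun j => 2 * j) := by
    ext x
    simp only [EE, Finset.mem_filter, Finset.mem_range, Finset.mem_union, Finset.mem_Icc,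
      Finset.mem_image, Finset.mem_Ioo]
    constructor
    · intro h
      by_cases h1 : x ≤ 2 * m
      · left; omega
      · right
        exact ⟨x / 2, by omega, by omega⟩
    · rintro (h | ⟨j, hj, rfl⟩)
      · omega
      · omega
  rw [h, Finset.card_union_of_disjoint, Finset.card_image_of_injective, Nat.card_Icc, Nat.card_Ioo]
  · omega
  · intro a b hab
    simp only at hab
    omega
  · rw [Finset.disjoint_left]
    intro x hx hx2
    rw [Finset.mem_Icc] at hx
    rw [Finset.mem_image] at hx2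
    obtain ⟨j, hj, rfl⟩ := hx2
    rw [Finset.mem_Ioo] at hj
    omega

theorem card_odd (m : ℕ) (hm : 1 ≤ m) : (EE (2 * m + 1)).card = 5 * m + 1 := by
  have h : EE (2 * m + 1) = Finset.Icc 2 (4 * m + 2) ∪
      (Finset.Icc (2 * m + 1) (3 * m)).image (fun j => 2 * j + 1) := by
    ext x
    simp only [EE, Finset.mem_filter, Finset.mem_range, Finset.mem_union, Finset.mem_Icc,
      Finset.mem_image]
    constructor
    · intro h
      by_cases h1 : x ≤ 4 * m + 2
      · left; omega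
      · right
        exact ⟨x / 2, by omega, by omega⟩
    · rintro (h | ⟨j, hj, rfl⟩)
      · omega
      · omega
  rw [h, Finset.card_union_of_disjoint, Finset.card_image_of_injective, Nat.card_Icc, Nat.card_Icc]
  · omega
  · intro a b hab
    simp only at hab
    omega
  · rw [Finset.disjoint_left]
    intro x hx hx2
    rw [Finset.mem_Icc] at hx
    rw [Finset.mem_image] at hx2
    obtain ⟨j, hj, rfl⟩ := hx2
    rw [Finset.mem_Icc] at hj
    omega

/-- the minimal generator with first coordinate `x` -/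
noncomputable def pt (n x : ℕ) : Fin 3 →₀ ℕ :=
  e3 x ((2 * n - x + 1) / 2) (if x ≤ n then 2 * n - x else (3 * n - x + 1) / 2)

/-- the exponents of the minimal generators which are counted -/
noncomputable def DD (n : ℕ) : Finset (Fin 3 →₀ ℕ) := (EE n).image (pt n)

theorem card_DD (n : ℕ) : (DD n).card = (EE n).card := by
  unfold DD
  apply Finset.card_image_of_injective
  intro x y h
  have := congrArg (fun a : Fin 3 →₀ ℕ => a 0) h
  simpa [pt] using this

theorem mem_DD (n : ℕ) (a : Fin 3 →₀ ℕ) : a ∈ DD n ↔ a 0 < 3 * n ∧ 2 ≤ a 0 ∧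
    (a 0 ≤ n ∨ (a 0 ≤ 2 * n ∧ a 0 % 2 = 0) ∨ a 0 % 2 = n % 2) ∧
    a 1 = (2 * n - a 0 + 1) / 2 ∧ a 2 = (if a 0 ≤ n then 2 * n - a 0 else (3 * n - a 0 + 1) / 2) := by
  unfold DD
  rw [Finset.mem_image]
  constructor
  · rintro ⟨x, hx, rfl⟩
    simp only [EE, Finset.mem_filter, Finset.mem_range] at hx
    simp only [pt, e3_0, e3_1, e3_2]
    exact ⟨hx.1, hx.2.1, hx.2.2, trivial, trivial⟩
  · rintro ⟨h1, h2, h3, h4, h5⟩
    refine ⟨a 0, ?_, ?_⟩
    · simp only [EE, Finset.mem_filter, Finset.mem_range]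
      exact ⟨h1, h2, h3⟩
    · apply ext3
      · simp [pt]
      · simp only [pt, e3_1]; exact h4.symm
      · simp only [pt, e3_2]; exact h5.symm

/-- the conditions which describe the exponents in the symbolic power -/
def UJ (n : ℕ) (a : Fin 3 →₀ ℕ) : Prop :=
  2 * n ≤ a 0 + 2 * a 1 ∧ 3 * n ≤ a 0 + 2 * a 2 ∧ 2 * n ≤ a 0 + a 2

theorem arith1 (n x z w : ℕ) (hn : 2 ≤ n) (h0 : x < 3 * n) (h1 : 2 ≤ x)
    (h2 : x ≤ n ∨ (x ≤ 2 * n ∧ x % 2 = 0) ∨ x % 2 = n % 2)
    (h3 : z = (2 * n - x + 1) / 2) (h4 : w = (if x ≤ n then 2 * n - x else (3 * n - x + 1) / 2)) :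
    (2 * n ≤ x + 2 * z ∧ 3 * n ≤ x + 2 * w ∧ 2 * n ≤ x + w) ∧ x + z + w < 3 * n ∧
    (1 ≤ x → ¬ (2 * n ≤ (x - 1) + 2 * z ∧ 3 * n ≤ (x - 1) + 2 * w ∧ 2 * n ≤ (x - 1) + w)) ∧
    (1 ≤ z → ¬ (2 * n ≤ x + 2 * (z - 1))) ∧
    (1 ≤ w → ¬ (3 * n ≤ x + 2 * (w - 1) ∧ 2 * n ≤ x + (w - 1))) := by
  split_ifs at h4 with h
  · omega
  · rcases h2 with h2 | h2 | h2
    · omega
    · omega
    · omega

theorem arith2 (n x z w : ℕ) (hn : 2 ≤ n)
    (h : 2 * n ≤ x + 2 * z ∧ 3 * n ≤ x + 2 * w ∧ 2 * n ≤ x + w)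
    (hx : 1 ≤ x → ¬ (2 * n ≤ (x - 1) + 2 * z ∧ 3 * n ≤ (x - 1) + 2 * w ∧ 2 * n ≤ (x - 1) + w))
    (hz : 1 ≤ z → ¬ (2 * n ≤ x + 2 * (z - 1)))
    (hw : 1 ≤ w → ¬ (3 * n ≤ x + 2 * (w - 1) ∧ 2 * n ≤ x + (w - 1))) :
    (x = 0 ∧ z = n ∧ w = 2 * n) ∨ (x = 1 ∧ z = n ∧ w = 2 * n - 1) ∨ (x = 3 * n ∧ z = 0 ∧ w = 0) ∨
    (x < 3 * n ∧ 2 ≤ x ∧ (x ≤ n ∨ (x ≤ 2 * n ∧ x % 2 = 0) ∨ x % 2 = n % 2) ∧
      z = (2 * n - x + 1) / 2 ∧ w = (if x ≤ n then 2 * n - x else (3 * n - x + 1) / 2)) := by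
  have e0 : x ≤ 3 * n := by omega
  have e1 : z = (2 * n - x + 1) / 2 := by omega
  have e2 : w = (if x ≤ n then 2 * n - x else (3 * n - x + 1) / 2) := by
    split_ifs <;> omega
  by_cases h0 : x = 0
  · left; omega
  by_cases h1 : x = 1
  · right; left; omega
  by_cases h3 : x = 3 * n
  · right; right; left; omega
  refine Or.inr (Or.inr (Or.inr ⟨by omega, by omega, ?_, e1, e2⟩))
  clear e2
  by_cases h4 : x ≤ n
  · left; exact h4
  · right
    by_cases h5 : x % 2 = n % 2
    · right; exact h5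
    · left
      omega

theorem sdef_eq (n : ℕ) (hn : 2 ≤ n) : sdef (II k) n = (EE n).card := by
  rw [← card_DD]
  unfold sdef
  apply finrank_quot
  · intro a ha
    rw [mem_sym]
    intro b hb
    have h1 : b = a := by
      have := support_monomial_subset hb
      simpa using this
    rw [h1]
    rw [mem_DD] at ha
    exact (arith1 n _ _ _ hn ha.1 ha.2.1 ha.2.2.1 ha.2.2.2.1 ha.2.2.2.2).1
  · intro f hf a ha
    rw [mem_DD] at ha
    have har := arith1 n _ _ _ hn ha.1 ha.2.1 ha.2.2.1 ha.2.2.2.1 ha.2.2.2.2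
    obtain ⟨g, hg, h, hh, rfl⟩ := Submodule.mem_sup.1 hf
    rw [coeff_add]
    have h1 : coeff a g = 0 := by
      by_contra hne
      have := (mem_W _ _ _).1 (W_pow _ _ n _ II_le4 hg) a (mem_support_iff.2 hne)
      rw [sum3] at this
      simp at this
      omega
    have h2 : coeff a h = 0 := by
      refine Submodule.mul_induction_on (C := fun h => coeff a h = 0) hh ?_ ?_
      · intro r hr s hs
        have key : ∀ r ∈ maxIdeal k 3, ∀ s ∈ symbolicPower (II k) n, coeff a (r * s) = 0 := by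
          intro r hr
          refine Submodule.span_induction (p := fun r _ => ∀ s ∈ symbolicPower (II k) n,
            coeff a (r * s) = 0) ?_ ?_ ?_ ?_ hr
          · rintro _ ⟨i, rfl⟩ s hs
            rw [mul_comm]
            by_contra hne
            rw [coeff_mul_X'] at hne
            split_ifs at hne with hi
            · have h5 := (mem_sym n s).1 hs _ (mem_support_iff.2 hne)
              have hi' : a i ≠ 0 := by simpa using hi
              fin_cases i
              · simp at h5 hi'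
                omega
              · simp at h5 hi'
                omega
              · simp at h5 hi'
                omega
            · exact hne rfl
          · intro s _
            rw [zero_mul, coeff_zero]
          · intro x y _ _ hx hy s hs
            rw [add_mul, coeff_add, hx s hs, hy s hs, add_zero]
          · intro c x _ hx s hs
            rw [smul_eq_mul, mul_comm c x, mul_assoc]
            exact hx _ (Ideal.mul_mem_left _ _ hs)
        exact key r hr s hs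
      · intro x y hx hy
        rw [coeff_add, hx, hy, add_zero]
    rw [h1, h2, add_zero]
  · intro f hf hD
    apply term_mem
    intro a ha
    have hU := (mem_sym n f).1 hf a ha
    have hnD : a ∉ DD n := by
      intro h
      exact (mem_support_iff.1 ha) (hD a h)
    have hpred : ∀ i : Fin 3, 1 ≤ a i → (∀ b : Fin 3 →₀ ℕ, b + Finsupp.single i 1 = a →
        2 * n ≤ b 0 + 2 * b 1 ∧ 3 * n ≤ b 0 + 2 * b 2 ∧ 2 * n ≤ b 0 + b 2) →
        monomial a (coeff a f) ∈ II k ^ n ⊔ maxIdeal k 3 * symbolicPower (II k) n := by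
      intro i hi hb
      have e : (a - Finsupp.single i 1) + Finsupp.single i 1 = a := by
        apply tsub_add_cancel_of_le
        rw [Finsupp.single_le_iff]
        exact hi
      have h1 : monomial a (coeff a f) = X i * monomial (a - Finsupp.single i 1) (coeff a f) := by
        rw [mul_comm, X, monomial_mul, mul_one, e]
      rw [h1]
      apply Submodule.mem_sup_right
      apply Ideal.mul_mem_mul
      · exact Ideal.subset_span ⟨i, rfl⟩
      · rw [mem_sym]
        intro b hb2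
        have h2 : b = a - Finsupp.single i 1 := by
          have := support_monomial_subset hb2
          simpa using this
        apply hb b
        rw [h2, e]
    by_cases hx : 1 ≤ a 0 ∧ (2 * n ≤ (a 0 - 1) + 2 * a 1 ∧ 3 * n ≤ (a 0 - 1) + 2 * a 2 ∧
        2 * n ≤ (a 0 - 1) + a 2)
    · apply hpred 0 hx.1
      intro b hb
      have e0 := congrArg (fun c : Fin 3 →₀ ℕ => c 0) hb
      have e1 := congrArg (fun c : Fin 3 →₀ ℕ => c 1) hb
      have e2 := congrArg (fun c : Fin 3 →₀ ℕ => c 2) hb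
      simp at e0 e1 e2
      omega
    by_cases hz : 1 ≤ a 1 ∧ 2 * n ≤ a 0 + 2 * (a 1 - 1)
    · apply hpred 1 hz.1
      intro b hb
      have e0 := congrArg (fun c : Fin 3 →₀ ℕ => c 0) hb
      have e1 := congrArg (fun c : Fin 3 →₀ ℕ => c 1) hb
      have e2 := congrArg (fun c : Fin 3 →₀ ℕ => c 2) hb
      simp at e0 e1 e2
      omega
    by_cases hw : 1 ≤ a 2 ∧ (3 * n ≤ a 0 + 2 * (a 2 - 1) ∧ 2 * n ≤ a 0 + (a 2 - 1))
    · apply hpred 2 hw.1
      intro b hb
      have e0 := congrArg (fun c : Fin 3 →₀ ℕ => c 0) hb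
      have e1 := congrArg (fun c : Fin 3 →₀ ℕ => c 1) hb
      have e2 := congrArg (fun c : Fin 3 →₀ ℕ => c 2) hb
      simp at e0 e1 e2
      omega
    rcases arith2 n (a 0) (a 1) (a 2) hn hU (fun h1 h2 => hx ⟨h1, h2⟩) (fun h1 h2 => hz ⟨h1, h2⟩)
      (fun h1 h2 => hw ⟨h1, h2⟩) with h | h | h | h
    · apply Submodule.mem_sup_left
      apply mem_of_le _ (smul_mem_pow (mem_II_mono (e3 0 1 2) (by simp)) n)
      rw [le3]
      simp only [Finsupp.smul_apply, e3_0, e3_1, e3_2, smul_eq_mul]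
      omega
    · apply Submodule.mem_sup_left
      have h1 : monomial (1 • e3 1 1 1 + (n - 1) • e3 0 1 2) (1 : k) ∈ II k ^ (1 + (n - 1)) :=
        mul_mem_pow (smul_mem_pow (mem_II_mono _ (by simp)) 1)
          (smul_mem_pow (mem_II_mono _ (by simp)) _)
      rw [show 1 + (n - 1) = n by omega] at h1
      apply mem_of_le _ h1
      rw [le3]
      simp only [Finsupp.add_apply, Finsupp.smul_apply, e3_0, e3_1, e3_2, smul_eq_mul]
      omega
    · apply Submodule.mem_sup_left
      apply mem_of_le _ (smul_mem_pow (mem_II_mono (e3 3 0 0) (by simp)) n)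
      rw [le3]
      simp only [Finsupp.smul_apply, e3_0, e3_1, e3_2, smul_eq_mul]
      omega
    · exact absurd ((mem_DD n a).2 h) hnD

theorem not_equal (f : ℕ → ℕ) (he : ∀ m, 1 ≤ m → f (2 * m) = 4 * m - 2)
    (ho : ∀ m, 1 ≤ m → f (2 * m + 1) = 5 * m + 1) : ¬ EqualLeadingCoefficients f := by
  intro h
  have h1 : HasBranches f 2 (fun i => if i = 0 then
      Polynomial.C 2 * Polynomial.X + Polynomial.C (-2) else
      Polynomial.C (5 / 2) * Polynomial.X + Polynomial.C (-3 / 2)) := by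
    refine ⟨by norm_num, 2, ?_⟩
    intro n hn
    rcases Nat.even_or_odd' n with ⟨m, rfl | rfl⟩
    · have h2 : 2 * m % 2 = 0 := by omega
      rw [h2, he m (by omega), Nat.cast_sub (by omega)]
      simp
      ring
    · have h2 : (2 * m + 1) % 2 = 1 := by omega
      rw [h2, ho m (by omega)]
      simp
      ring
  have h2 := h 2 _ h1 0 (by norm_num) 1 (by norm_num)
  have d0 : (Polynomial.C (2 : ℚ) * Polynomial.X + Polynomial.C (-2)).natDegree = 1 :=
    Polynomial.natDegree_linear (by norm_num)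
  have d1 : (Polynomial.C (5 / 2 : ℚ) * Polynomial.X + Polynomial.C (-3 / 2)).natDegree = 1 :=
    Polynomial.natDegree_linear (by norm_num)
  have hd : ((Finset.range 2).sup fun l => ((if l = 0 then
      Polynomial.C (2 : ℚ) * Polynomial.X + Polynomial.C (-2) else
      Polynomial.C (5 / 2) * Polynomial.X + Polynomial.C (-3 / 2) : Polynomial ℚ)).natDegree) = 1 := by
    rw [show Finset.range 2 = {0, 1} from rfl, Finset.sup_insert, Finset.sup_singleton]
    rw [if_pos rfl, if_neg one_ne_zero, d0, d1]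
    rfl
  rw [hd] at h2
  simp [Polynomial.coeff_C] at h2
  norm_num at h2

/-- **The result.** -/
theorem result (k : Type*) [Field k] : ∃ I : Ideal (MvPolynomial (Fin 3) k),
    IsMonomialIdeal I ∧
    (∀ m : ℕ, 1 ≤ m → sdef I (2 * m) = 4 * m - 2) ∧
    (∀ m : ℕ, 1 ≤ m → sdef I (2 * m + 1) = 5 * m + 1) ∧
    ¬ EqualLeadingCoefficients (sdef I) := by
  have he : ∀ m : ℕ, 1 ≤ m → sdef (II k) (2 * m) = 4 * m - 2 := fun m hm => by
    rw [sdef_eq _ (by omega), card_even m hm]
  have ho : ∀ m : ℕ, 1 ≤ m → sdef (II k) (2 * m + 1) = 5 * m + 1 := fun m hm => by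
    rw [sdef_eq _ (by omega), card_odd m hm]
  exact ⟨II k, ⟨gens, rfl⟩, he, ho, not_equal _ he ho⟩

end Pool.Agent.Results.MP_a342dd_al.BranchesDiffer
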